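import Mathlib
import Pool.Agent.Q235.SN.MainN
import Pool.Agent.Q235.SZ.Push

/-!
# Closed two-forms with thin degeneracy sets and symplectic structures, in dimension `2 n`

Let `X` be a closed manifold of dimension `2 n` and `τ` a nondegenerate two-form on `X` (there is one
if and only if `X` has an almost complex structure), which serves to orient `X`. A closed two-form
`σ` with `σ ^ n ≥ 0`, the zeros of `σ ^ n` being thin, is a limit of symplectic forms `σ + t η`,
`0 < t ≤ 1`, `t → 0`, in its cohomology class.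
-/

set_option autoImplicit false

open Set Filter Topology MeasureTheory
open scoped Manifold ContDiff

noncomputable section

namespace Pool.Agent.Results.MP_2a78db_gt.ThinDegenerations

open Pool.Agent.Y501.SYP
open Pool.Agent.Q235.SZ (SmallFor Nondeg)

section

variable {V : Type} [NormedAddCommGroup V] [NormedSpace ℝ V]
  {X : Type} [TopologicalSpace X] [ChartedSpace V X]

/-- The value of `σ ^ n` on `2 n` tangent vectors `v (i, b)` (`i < n`, `b` one of the two truth
values), up to a positive factor which depends on `n` and on the convention for the product: the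
sum over the permutations `π` of the `2 n` indices of the sign of `π` times the product over `i` of
`σ (v (π (i, false)), v (π (i, true)))`. -/
def power (n : ℕ) (σ : Form V X 2) (x : X) (v : Fin n × Bool → TangentSpace 𝓘(ℝ, V) x) : ℝ :=
  ∑ π : Equiv.Perm (Fin n × Bool), ((Equiv.Perm.sign π : ℤ) : ℝ) *
    ∏ i, σ x ![v (π (i, false)), v (π (i, true))]

/-- the zeros of `σ ^ n` -/
def Zeros (n : ℕ) (σ : Form V X 2) : Set X := {x | ∀ v, power n σ x v = 0}

/-- `σ ^ n ≥ 0` for the orientation given by `τ ^ n` -/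
def Nonneg (n : ℕ) (τ σ : Form V X 2) : Prop :=
  ∀ (x : X) (v : Fin n × Bool → TangentSpace 𝓘(ℝ, V) x), 0 ≤ power n σ x v * power n τ x v

/-- The zeros of `σ ^ n` are thin: `σ ^ (n - 1)` is not zero at these points (so `σ` has rank
`2 n - 2`, its kernel is a plane), and each component `C` of the set of zeros is small at each
of its points `z`: it has zero area (two-dimensional Hausdorff measure) near `z`, or the kernel of
`σ` at `z` is not contained in the tangent space of `C` at `z`. -/
def ThinlyDegenerate [MeasurableSpace V] [BorelSpace V] (n : ℕ) (σ : Form V X 2) : Prop :=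
  ∀ z ∈ Zeros n σ, z ∉ Zeros (n - 1) σ ∧ SmallFor σ (connectedComponentIn (Zeros n σ) z) z

/-- the form `σ + t η` -/
def line (σ η : Form V X 2) (t : ℝ) : Form V X 2 := fun x => σ x + t • η x

/-- symplectic forms: smooth, closed and nondegenerate two-forms -/
structure IsSymplectic (w : Form V X 2) : Prop where
  smooth : IsSmooth w
  closed : IsClosedForm w
  nondeg : Nondeg w

end

section

open Pool.Agent.Q235.SN

variable {d n : ℕ} {X : Type} [TopologicalSpace X] [ChartedSpace (ES d) X]

theorem power_eq (σ : Form (ES d) X 2) (x : X)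
    (v : Fin n × Bool → TangentSpace 𝓘(ℝ, ES d) x) :
    power n σ x v = top (n := n) (V := ES d) (σ x) v :=
  (wedN_apply (V := ES d) (fun _ => σ x) v).symm

theorem power_frame (e : Module.Basis (Fin n × Bool) ℝ (ES d)) (σ : Form (ES d) X 2) (x : X)
    (v : Fin n × Bool → TangentSpace 𝓘(ℝ, ES d) x) :
    power n σ x v = top (n := n) (V := ES d) (σ x) e * e.det v :=
  (power_eq σ x v).trans (wedN_frame e (fun _ => σ x) v)

theorem zeros_iff (e : Module.Basis (Fin n × Bool) ℝ (ES d)) (σ : Form (ES d) X 2) (x : X) :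
    x ∈ Zeros n σ ↔ top (n := n) (V := ES d) (σ x) e = 0 := by
  constructor
  · intro h
    exact (power_eq σ x e).symm.trans (h e)
  · intro h v
    exact (power_frame e σ x v).trans (by rw [h, zero_mul])

theorem smul_props [IsManifold 𝓘(ℝ, ES d) ∞ X] {α : Form (ES d) X 1} {η : Form (ES d) X 2}
    (c : ℝ) (h1 : IsSmooth α) (h2 : IsSmooth η) (h3 : IsD α η) :
    IsSmooth (fun x => c • α x : Form (ES d) X 1) ∧ IsSmooth (fun x => c • η x : Form (ES d) X 2) ∧
      IsD (fun x => c • α x : Form (ES d) X 1) (fun x => c • η x : Form (ES d) X 2) := by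
  refine ⟨fun U φ hφ => (h1 U φ hφ).const_smul c, fun U φ hφ => (h2 U φ hφ).const_smul c,
    fun U φ hφ p hp => ?_⟩
  have h4 : extDeriv (c • pb φ α) p = c • extDeriv (pb φ α) p := extDeriv_smul c (pb φ α)
  rw [h3 U φ hφ p hp] at h4
  exact h4

end

theorem result (n : ℕ) (hn : 1 ≤ n) (X : Type) [TopologicalSpace X]
    [ChartedSpace (ES (2 * n)) X] [IsManifold 𝓘(ℝ, ES (2 * n)) ∞ X] [CompactSpace X] [T2Space X]
    (τ : Form (ES (2 * n)) X 2) (hτ : IsSmooth τ) (hτn : Zeros n τ = ∅)
    (σ : Form (ES (2 * n)) X 2) (hσ : IsSmooth σ) (hσc : IsClosedForm σ) (hpos : Nonneg n τ σ)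
    (hthin : ThinlyDegenerate n σ) :
    ∃ (α : Form (ES (2 * n)) X 1) (η : Form (ES (2 * n)) X 2), IsSmooth α ∧ IsSmooth η ∧
      IsD α η ∧ ∀ t : ℝ, 0 < t → t ≤ 1 →
        IsSymplectic (line σ η t) ∧ Nonneg n τ (line σ η t) := by
  obtain ⟨m, rfl⟩ : ∃ m, n = m + 1 := ⟨n - 1, by omega⟩
  let e : Module.Basis (Fin (m + 1) × Bool) ℝ (ES (2 * (m + 1))) :=
    (EuclideanSpace.basisFun (Fin (2 * (m + 1))) ℝ).toBasis.reindex
      (Fintype.equivOfCardEq (by simp [mul_comm]))
  have hτ0 : ∀ x, Pool.Agent.Q235.SN.top (n := m + 1) (V := ES (2 * (m + 1))) (τ x) e ≠ 0 := by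
    intro x h
    have h1 : x ∈ Zeros (m + 1) τ := (zeros_iff e τ x).2 h
    rw [hτn] at h1
    exact h1
  have hD0 : Zeros (m + 1) σ =
      {x | Pool.Agent.Q235.SN.ratN e τ (fun _ : Fin (m + 1) => σ) x = 0} := by
    ext x
    rw [zeros_iff e σ x]
    constructor
    · intro h
      exact (div_eq_zero_iff).2 (Or.inl h)
    · intro h
      exact ((div_eq_zero_iff).1 h).resolve_right (hτ0 x)
  have hrat : ∀ (s : Form (ES (2 * (m + 1))) X 2) (x : X),
      Pool.Agent.Q235.SN.ratN e τ (fun _ : Fin (m + 1) => s) x =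
      Pool.Agent.Q235.SN.top (n := m + 1) (V := ES (2 * (m + 1))) (s x) e /
        Pool.Agent.Q235.SN.top (n := m + 1) (V := ES (2 * (m + 1))) (τ x) e := fun s x => rfl
  have hnn : ∀ x, 0 ≤ Pool.Agent.Q235.SN.ratN e τ (fun _ : Fin (m + 1) => σ) x := by
    intro x
    have h1 : 0 ≤ Pool.Agent.Q235.SN.top (n := m + 1) (V := ES (2 * (m + 1))) (σ x) e *
        Pool.Agent.Q235.SN.top (n := m + 1) (V := ES (2 * (m + 1))) (τ x) e := by
      have h0 := hpos x e
      have e1 := power_eq σ x e
      have e2 := power_eq τ x e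
      exact (congrArg₂ (· * ·) e1 e2) ▸ h0
    rw [hrat]
    have h2 := hτ0 x
    rw [div_nonneg_iff]
    rcases lt_or_gt_of_ne h2 with h3 | h3
    · exact Or.inr ⟨by
        by_contra h4
        push Not at h4
        have := mul_neg_of_pos_of_neg h4 h3
        linarith, h3.le⟩
    · exact Or.inl ⟨by
        by_contra h4
        push Not at h4
        have := mul_neg_of_neg_of_pos h4 h3
        linarith, h3.le⟩
  obtain ⟨α, η, h1, h2, h3, h4, t₀, ht₀, h5⟩ := Pool.Agent.Q235.SN.push_one e hτ hτ0 hσ hnn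
    (Zeros (m + 1) σ) hD0 (fun z hz => by
      have h6 := (hthin z hz).1
      have h7 : ∃ v, power m σ z v ≠ 0 := by
        by_contra hc
        push Not at hc
        exact h6 hc
      obtain ⟨u, hu⟩ := h7
      exact ⟨u, fun h => hu ((power_eq σ z u).trans h)⟩) (fun z hz => (hthin z hz).2)
  obtain ⟨g1, g2, g3⟩ := smul_props t₀ h1 h2 h3
  refine ⟨_, _, g1, g2, g3, fun t ht ht1 => ?_⟩
  have hline : line σ (fun x => t₀ • η x) t = Pool.Agent.Q235.SN.lineF σ η (t * t₀) := by
    funext x
    change σ x + t • (t₀ • η x) = σ x + (t * t₀) • η x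
    rw [smul_smul]
  rw [hline]
  have h6 : ∀ x, 0 < Pool.Agent.Q235.SN.top (n := m + 1) (V := ES (2 * (m + 1)))
      (Pool.Agent.Q235.SN.lineF σ η (t * t₀) x) e *
      Pool.Agent.Q235.SN.top (n := m + 1) (V := ES (2 * (m + 1))) (τ x) e := by
    intro x
    have h7 := h5 (t * t₀) (mul_pos ht ht₀) (by nlinarith) x
    rw [hrat] at h7
    have h8 := mul_pos h7 (pow_pos (abs_pos.2 (hτ0 x)) 2)
    rw [sq_abs, sq, ← mul_assoc, div_mul_cancel₀ _ (hτ0 x)] at h8
    exact h8
  refine ⟨⟨fun U φ hφ => (hσ U φ hφ).add ((h2 U φ hφ).const_smul (t * t₀)), ?_, ?_⟩, ?_⟩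
  · exact Pool.Agent.Q235.SZ.closed_add (V := ES (2 * (m + 1))) (σ := ⟨σ, hσ⟩) (η := ⟨η, h2⟩)
      (t * t₀) hσc h4
  · intro x v hv
    by_contra hv0
    have h7 := Pool.Agent.Q235.SN.top_degenerate (V := ES (2 * (m + 1))) e
      (Pool.Agent.Q235.SN.lineF σ η (t * t₀) x) (v := v) hv0 hv
    have h8 := h6 x
    rw [h7, zero_mul] at h8
    exact lt_irrefl _ h8
  · intro x v
    rw [power_frame e, power_frame e]
    have h7 := (h6 x).le
    have h8 := mul_nonneg h7 (mul_self_nonneg (e.det v))
    refine le_of_le_of_eq h8 ?_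
    ring

end Pool.Agent.Results.MP_2a78db_gt.ThinDegenerations
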